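import Pool.Agent.Split938.Split

set_option autoImplicit false
open Metric Set Filter Topology

namespace Pool.Agent.Results.MP_d32a63_an.LocalOne

/-- The class `A^n(T)`: `f` is holomorphic off `T` and each of `f, f', ..., f^(n)` extends
continuously from `W = Tᶜ` to `W⁻ = Tᶜ ∪ ∂T`. -/
def A (T : Set ℂ) (n : ℕ) : Set (ℂ → ℂ) :=
  {f | DifferentiableOn ℂ f Tᶜ ∧
    ∀ k ≤ n, ∃ g : ℂ → ℂ, ContinuousOn g (Tᶜ ∪ frontier T) ∧ EqOn g (iteratedDeriv k f) Tᶜ}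

/-- `A^n(T)` is trivial: each of its elements is the restriction to `Tᶜ` of an entire function. -/
def Trivial (T : Set ℂ) (n : ℕ) : Prop :=
  ∀ f ∈ A T n, ∃ h : ℂ → ℂ, Differentiable ℂ h ∧ EqOn f h Tᶜ

theorem mem_of_pieces {T : Set ℂ} {f g : ℂ → ℂ} (hf : Continuous f)
    (hg : Continuous g) (hd : ∀ z ∉ T, HasDerivAt f (g z) z) : f ∈ A T 1 := by
  refine ⟨fun z hz => (hd z hz).differentiableAt.differentiableWithinAt, ?_⟩
  intro k hk
  interval_cases k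
  · exact ⟨f, hf.continuousOn, fun z _ => by simp⟩
  · refine ⟨g, hg.continuousOn, fun z hz => ?_⟩
    rw [iteratedDeriv_one]
    exact (hd z hz).deriv.symm

/-- **Triviality of `A^1` is a local property** of the closed set: if `S = S₁ ∪ S₂` is an
admissible decomposition of a closed set and `A^1(S₁)`, `A^1(S₂)` are trivial, then so is
`A^1(S)`. -/
theorem result (S S₁ S₂ : Set ℂ) (hS : IsClosed S) (h₁ : IsClosed S₁) (h₂ : IsClosed S₂)
    (hU : S = S₁ ∪ S₂)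
    (hint : ∀ z ∈ S, (∃ U ∈ 𝓝 z, U ∩ S ⊆ S₁) ∨ (∃ U ∈ 𝓝 z, U ∩ S ⊆ S₂))
    (t₁ : Trivial S₁ 1) (t₂ : Trivial S₂ 1) : Trivial S 1 := by
  rintro f ⟨hdiff, hk⟩
  obtain ⟨g₀, hg₀, he₀⟩ := hk 0 (by norm_num)
  obtain ⟨g₁, hg₁, he₁⟩ := hk 1 le_rfl
  obtain ⟨f', hf', ef⟩ := Split938.extend hg₀
  obtain ⟨g', hg', eg⟩ := Split938.extend hg₁
  have hff : ∀ z ∉ S, f' z = f z := fun z hz => by
    rw [ef hz, he₀ hz, iteratedDeriv_zero]
  have hd : ∀ z ∉ S, HasDerivAt f' (g' z) z := by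
    intro z hz
    have h1 : HasDerivAt f (deriv f z) z :=
      (hdiff.differentiableAt (hS.isOpen_compl.mem_nhds hz)).hasDerivAt
    have h2 : g' z = deriv f z := by
      rw [eg hz, he₁ hz, iteratedDeriv_one]
    rw [h2]
    refine h1.congr_of_eventuallyEq ?_
    filter_upwards [hS.isOpen_compl.mem_nhds hz] with w hw
    exact hff w hw
  obtain ⟨f₁, g₁, f₂, g₂, c1, c2, c3, c4, d1, d2, e⟩ :=
    Split938.split hS h₁ h₂ hU hint hf' hg' hd
  obtain ⟨k₁, hk₁, ek₁⟩ := t₁ f₁ (mem_of_pieces c1 c2 d1)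
  obtain ⟨k₂, hk₂, ek₂⟩ := t₂ f₂ (mem_of_pieces c3 c4 d2)
  have s1 : S₁ ⊆ S := by rw [hU]; exact subset_union_left
  have s2 : S₂ ⊆ S := by rw [hU]; exact subset_union_right
  refine ⟨fun z => k₁ z + k₂ z, hk₁.add hk₂, fun z hz => ?_⟩
  show f z = k₁ z + k₂ z
  rw [← hff z hz, e z, ek₁ (fun h => hz (s1 h)), ek₂ (fun h => hz (s2 h))]

end Pool.Agent.Results.MP_d32a63_an.LocalOne
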